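import Pool.Agent.H77.SSA.Stmts

/-!
EVAL: a set of coordinates closed under children and witnesses; GAM: every name is given by a
good coordinate; SEL: selectivity.
-/

set_option linter.unusedVariables false

namespace SSA

open Filter

namespace H80

/-! ### witnesses -/

/-- the coordinates of a chosen extension of the condition coded by `d` and `c` -/
noncomputable def wset (R : RC → Om → ℕ → ℕ → Prop) (d : Dat) (c : ℕ → Crd) (ξ : Om) (n : ℕ) :
    Set Crd := by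
  classical
  exact if h : ∃ s : RC, VA Set.univ s ∧ s.Le (deco d c) ∧ ∃ m, R s ξ n m then h.choose.Z else ∅

theorem wset_countable (R : RC → Om → ℕ → ℕ → Prop) (d : Dat) (c : ℕ → Crd) (ξ : Om) (n : ℕ) :
    (wset R d c ξ n).Countable := by
  classical
  unfold wset
  split_ifs with h
  · exact h.choose_spec.1.1.cZ
  · exact Set.countable_empty

/-- an enumeration of the witnesses -/
noncomputable def wch (R : RC → Om → ℕ → ℕ → Prop) (d : Dat) (c : ℕ → Crd) (ξ : Om) (n : ℕ) :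
    ℕ → Crd := by
  classical
  exact if h : (wset R d c ξ n).Nonempty then
    ((wset_countable R d c ξ n).exists_eq_range h).choose else fun _ => .base

theorem wset_sub (R : RC → Om → ℕ → ℕ → Prop) (d : Dat) (c : ℕ → Crd) (ξ : Om) (n : ℕ) :
    wset R d c ξ n ⊆ Set.range (wch R d c ξ n) := by
  classical
  intro a ha
  have h : (wset R d c ξ n).Nonempty := ⟨a, ha⟩
  unfold wch
  rw [dif_pos h]
  rw [← ((wset_countable R d c ξ n).exists_eq_range h).choose_spec]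
  exact ha

/-- the evaluation -/
noncomputable def ev (R : RC → Om → ℕ → ℕ → Prop) : K → Crd
  | .leaf => .base
  | .chd t ξ n κ i => (ev R t).ch ξ n κ i
  | .wit d ts ξ n i => wch R d (fun j => ev R (ts j)) ξ n i

theorem ev_chd (R : RC → Om → ℕ → ℕ → Prop) (t : K) (a : Crd) (h : Chd a (ev R t)) :
    ∃ t', ev R t' = a := by
  cases hg : ev R t with
  | base => rw [hg] at h; exact h.elim
  | mk d m ch =>
    rw [hg] at h
    obtain ⟨ξ, n, κ, i, rfl⟩ := h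
    refine ⟨.chd t ξ n κ i, ?_⟩
    show (ev R t).ch ξ n κ i = ch ξ n κ i
    rw [hg]
    rfl

end H80

theorem ssa_eval (hE : ENCStmt) : EVALStmt := by
  classical
  intro R hR
  refine ⟨H80.ev R, H80.ev_chd R, ?_⟩
  intro p hp hpZ ξ n
  obtain ⟨d, ts, h1, h2, h3, h4⟩ := hE (H80.ev R) p hp hpZ
  have hex : ∃ s : RC, VA Set.univ s ∧ s.Le (deco d (fun i => H80.ev R (ts i))) ∧
      ∃ m, R s ξ n m := by
    obtain ⟨s, m, hs, hle, hRs⟩ := hR.dense ξ n _ h1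
    exact ⟨s, hs, hle, m, hRs⟩
  obtain ⟨hs, hle, m, hm⟩ := hex.choose_spec
  refine ⟨hex.choose, m, hs, ?_, hle.trans h2, hm⟩
  have hw : H80.wset R d (fun i => H80.ev R (ts i)) ξ n = hex.choose.Z := by
    unfold H80.wset
    rw [dif_pos hex]
  rw [← hw]
  refine (H80.wset_sub R d _ ξ n).trans ?_
  rintro _ ⟨i, rfl⟩
  exact ⟨.wit d ts ξ n i, rfl⟩

namespace H80

/-- the empty condition -/
noncomputable def rc0 : RC where
  ht := bt
  x _ _ := 0
  z _ _ := 0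
  Pi := ∅
  Z := ∅
  dl _ := bt
  st _ _ _ := .opn ∅

theorem rc0_va (A : Set Crd) : VA A rc0 := by
  refine ⟨⟨Set.countable_empty, fun S hS => hS.elim, Set.countable_empty, ?_, ?_⟩,
    Set.empty_subset _, fun g hg => hg.elim⟩
  · intro ξ hξ
    exact absurd hξ (not_lt.2 (bt_le ξ))
  · intro ξ hξ
    exact absurd hξ (not_lt.2 (bt_le ξ))

/-- a code of a condition with a value -/
def isw (R : RC → Om → ℕ → ℕ → Prop) (e : K → Crd) (ξ : Om) (n : ℕ) (a : Dat × (ℕ → K) × ℕ) :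
    Prop :=
  VA Set.univ (deco a.1 (fun i => e (a.2.1 i))) ∧
    R (deco a.1 (fun i => e (a.2.1 i))) ξ n a.2.2

/-- the choice for `κ` -/
noncomputable def pick (R : RC → Om → ℕ → ℕ → Prop) (e : K → Crd)
    (hex : ∀ ξ n, ∃ a, isw R e ξ n a) (ξ : Om) (n : ℕ) (κ : K) : Dat × (ℕ → K) × ℕ := by
  classical
  exact if h : ∃ a : Dat × (ℕ → K) × ℕ, isw R e ξ n a ∧ κ = .wit a.1 a.2.1 bt 0 0 then h.choose
    else (hex ξ n).choose

theorem pick_spec (R : RC → Om → ℕ → ℕ → Prop) (e : K → Crd)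
    (hex : ∀ ξ n, ∃ a, isw R e ξ n a) (ξ : Om) (n : ℕ) (κ : K) :
    isw R e ξ n (pick R e hex ξ n κ) := by
  classical
  unfold pick
  split_ifs with h
  · exact h.choose_spec.1
  · exact (hex ξ n).choose_spec

theorem pick_wit (R : RC → Om → ℕ → ℕ → Prop) (e : K → Crd)
    (hex : ∀ ξ n, ∃ a, isw R e ξ n a) (ξ : Om) (n : ℕ) (a : Dat × (ℕ → K) × ℕ)
    (ha : isw R e ξ n a) :
    (pick R e hex ξ n (.wit a.1 a.2.1 bt 0 0)).1 = a.1 ∧
      (pick R e hex ξ n (.wit a.1 a.2.1 bt 0 0)).2.1 = a.2.1 := by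
  classical
  have h : ∃ b : Dat × (ℕ → K) × ℕ, isw R e ξ n b ∧
      K.wit a.1 a.2.1 bt 0 0 = .wit b.1 b.2.1 bt 0 0 := ⟨a, ha, rfl⟩
  unfold pick
  rw [dif_pos h]
  have := h.choose_spec.2
  rw [K.wit.injEq] at this
  exact ⟨this.1.symm, this.2.1.symm⟩

end H80

theorem ssa_gam (hV : EVALStmt) (hE : ENCStmt) : GAMStmt := by
  classical
  intro R hR
  obtain ⟨e, he1, he2⟩ := hV R hR
  have hcode : ∀ (p : RC), VA Set.univ p → p.Z ⊆ Set.range e → ∀ ξ n,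
      ∃ a, H80.isw R e ξ n a ∧ (deco a.1 (fun i => e (a.2.1 i))).Le p := by
    intro p hp hpZ ξ n
    obtain ⟨q, m, hq, hqZ, hqp, hqR⟩ := he2 p hp hpZ ξ n
    obtain ⟨d, ts, h1, h2, h3, h4⟩ := hE e q hq hqZ
    exact ⟨(d, ts, m), ⟨h1, hR.mono ξ n m q _ hq h1 h2 hqR⟩, h2.trans hqp⟩
  have hex : ∀ ξ n, ∃ a, H80.isw R e ξ n a := by
    intro ξ n
    obtain ⟨a, ha, -⟩ := hcode H80.rc0 (H80.rc0_va _) (Set.empty_subset _) ξ n
    exact ⟨a, ha⟩
  let g : Crd := .mk (fun ξ n κ => (H80.pick R e hex ξ n κ).1)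
    (fun ξ n κ => (H80.pick R e hex ξ n κ).2.2)
    (fun ξ n κ i => e ((H80.pick R e hex ξ n κ).2.1 i))
  have hpre : ∀ ξ n κ, pre g ξ n κ = deco (H80.pick R e hex ξ n κ).1
      (fun i => e ((H80.pick R e hex ξ n κ).2.1 i)) := fun ξ n κ => rfl
  have hdep : Dep g ⊆ Set.range e := by
    have key : ∀ b, Relation.ReflTransGen Chd b g → b = g ∨ b ∈ Set.range e := by
      intro b hb
      induction hb using Relation.ReflTransGen.head_induction_on with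
      | refl => exact Or.inl rfl
      | head h' h ih =>
        right
        rcases ih with rfl | ⟨t, rfl⟩
        · obtain ⟨ξ, n, κ, i, rfl⟩ := h'
          exact ⟨_, rfl⟩
        · exact he1 t _ h'
    intro a ha
    rcases Relation.TransGen.head'_iff.1 ha with ⟨b, hab, hb⟩
    rcases key b hb with rfl | ⟨t, rfl⟩
    · obtain ⟨ξ, n, κ, i, rfl⟩ := hab
      exact ⟨_, rfl⟩
    · exact he1 t a hab
  refine ⟨g, ?_, ?_⟩
  · intro ξ n r hr
    obtain ⟨a, ha, hle⟩ := hcode r (hr.mono (Set.subset_univ _)) (hr.2.1.trans hdep) ξ n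
    have hp := H80.pick_wit R e hex ξ n a ha
    have heq : pre g ξ n (.wit a.1 a.2.1 bt 0 0) = deco a.1 (fun i => e (a.2.1 i)) := by
      rw [hpre, hp.1, hp.2]
    refine ⟨deco a.1 (fun i => e (a.2.1 i)), ⟨ha.1.1, ?_, ha.1.2.2⟩, hle,
      .wit a.1 a.2.1 bt 0 0, ?_⟩
    · rintro b ⟨i, hi, rfl⟩
      refine Relation.TransGen.single ?_
      refine ⟨ξ, n, .wit a.1 a.2.1 bt 0 0, i, ?_⟩
      show e ((H80.pick R e hex ξ n (.wit a.1 a.2.1 bt 0 0)).2.1 i) = e (a.2.1 i)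
      rw [hp.2]
    · rw [heq]
      exact RC.Le.refl _
  · intro ξ n κ
    have h := H80.pick_spec R e hex ξ n κ
    rw [hpre]
    exact ⟨h.1, h.2⟩

theorem ssa_sel (hG : GAMStmt) (hI : INDStmt) (hX : XXStmt) (hA : ACTStmt) (hR' : RESStmt)
    (hAM : AMStmt) : SELStmt := by
  classical
  intro R hd hm
  let R' : RC → Om → ℕ → ℕ → Prop := fun r ξ n m => ∃ h : VA Set.univ r, R ⟨r, h⟩ ξ n m
  have hN : Nam2 R' := by
    refine ⟨?_, ?_⟩
    · intro ξ n r hr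
      obtain ⟨q, hq, m, hqm⟩ := hd ξ n ⟨r, hr⟩
      exact ⟨q.1, m, q.2, hq, q.2, hqm⟩
    · rintro ξ n m r s hr hs hle ⟨h, hRr⟩
      exact ⟨hs, hm ξ n m ⟨r, h⟩ ⟨s, hs⟩ hle hRr⟩
  obtain ⟨g, hg, hpre⟩ := hG R' hN
  have hact : ∀ (p : PP) (ξ : Om), ∃ q : PP, q ≤ p ∧ g ∈ q.1.Z ∧ ξ < q.1.dl g := by
    intro p ξ
    obtain ⟨h, hh⟩ := Om.bdd (s := {ξ, p.1.ht}) (Set.toFinite _).countable
    obtain ⟨q1, hv1, hle1, hht1, -, -⟩ := hX Set.univ p.1 p.2 h
      (hh _ (by simp)).le (fun _ _ => 0)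
    obtain ⟨q2, hv2, hle2, hg2, hht2⟩ := hA Set.univ q1 g hv1 trivial hg
    obtain ⟨q3, hv3, hle3, hdl⟩ := (hI Set.univ clo_univ).1 g trivial q2 hv2 hg2 ∅
      (fun t ht => absurd ht (Finset.notMem_empty t))
    refine ⟨⟨q3, hv3⟩, hle3.1.trans (hle2.trans hle1), hle3.1.Z hg2, ?_⟩
    have h1 : ξ < h := hh _ (by simp)
    rw [← hht1, ← hht2] at h1
    exact h1.trans_le hdl
  refine ⟨fun p n v => g ∈ p.1.Z ∧ ∃ k i, v = Nat.pair k i ∧ p.1.st g n k = .hit i, ?_, ?_, ?_⟩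
  · rintro n v p q hqp ⟨h1, k, i, rfl, h2⟩
    refine ⟨hqp.Z h1, k, i, rfl, ?_⟩
    have := hqp.st g h1 n k
    rw [h2] at this
    exact St.of_le_hit this
  · intro p ξ n
    obtain ⟨q, hqp, hgq, hξ⟩ := hact p ξ
    have hvc := (q.2.2.2 g hgq).1
    obtain ⟨K0, hK0⟩ := eventually_atTop.1 (hvc.c1 ξ hξ n)
    refine ⟨q, hqp, (Finset.range K0).sup (fun k => Nat.pair k (q.1.x ξ k)) + 1, ?_⟩
    rintro v hv r hr ⟨⟨h1, k, i, hvk, h2⟩, h3, k', hvk'⟩
    rw [hvk] at hvk'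
    have h4 := Nat.pair_eq_pair.1 hvk'
    obtain ⟨rfl, h5⟩ := h4
    have hxr : r.1.x ξ = q.1.x ξ := hr.x ξ (hξ.trans_le hvc.dht)
    rw [hxr] at h5
    rcases lt_or_ge k K0 with h6 | h6
    · have h7 : Nat.pair k (q.1.x ξ k) ≤
          (Finset.range K0).sup (fun k => Nat.pair k (q.1.x ξ k)) :=
        Finset.le_sup (f := fun k => Nat.pair k (q.1.x ξ k)) (Finset.mem_range.2 h6)
      rw [hvk, h5] at hv
      omega
    · have h7 := hK0 k h6
      have h8 := St.excl_mono (hr.st g hgq n k) h7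
      rw [h2] at h8
      exact h8 h5
  · intro p ξ
    obtain ⟨q, hqp, hgq, hξ⟩ := hact p ξ
    have hvc := (q.2.2.2 g hgq).1
    have hcl := ((Ok_iff g q.1).1 (q.2.2.2 g hgq).2).2 ξ hξ
    have hres : VA (Dep g) (q.1.res (Dep g)) := hR' Set.univ (Dep g) q.1 (clo_dep g) q.2
    obtain ⟨r', hr', hle', n, -, k, κ, hst, hpk, hval⟩ := hcl (q.1.res (Dep g))
      (RC.Sim.refl hres.lg) 0 (q.1.res (Dep g)) hres (RC.Le.refl _)
    obtain ⟨ham, ham1, ham2⟩ := hAM Set.univ (Dep g) q.1 r' (clo_dep g) (Set.subset_univ _) q.2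
      hr' hle'
    have hRq : R' (r'.am q.1) ξ n (g.val ξ n κ) :=
      hN.mono ξ n _ _ _ (hpre ξ n κ).1 ham (ham2.trans hpk) (hpre ξ n κ).2
    obtain ⟨hva, hRq⟩ := hRq
    refine ⟨⟨r'.am q.1, ham⟩, PP.le_def _ _ |>.2 (ham1.trans hqp), n, g.val ξ n κ,
      Nat.pair k (q.1.x ξ k), hval.trans (Nat.left_le_pair _ _), hRq, ⟨ham1.Z hgq, k, _, rfl, ?_⟩,
      ?_, k, ?_⟩
    · have := ham1.st g hgq n k
      rw [hst] at this
      exact St.of_le_hit this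
    · exact (hξ.trans_le hvc.dht).trans_le ham1.ht
    · have := ham1.x ξ (hξ.trans_le hvc.dht)
      show Nat.pair k (q.1.x ξ k) = Nat.pair k ((r'.am q.1).x ξ k)
      rw [this]

end SSA
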